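import Pool.Agent.Helper76.DE.Final

/-!
# MP_77ff3d_nt: uniform means of invariant functions and densities of grand orbits of the `3x-1` map
-/

open Filter

namespace Pool.Agent.Results.MP_77ff3d_nt.InvariantMeans

/-- The map of the problem: `a ↦ a/2` for even `a`, `a ↦ 3a-1` for odd `a`. -/
def T (a : ℕ) : ℕ := if a % 2 = 0 then a / 2 else 3 * a - 1

/-- The set `E` of positive integers has the natural density `d`. -/
def HasDensity (E : Set ℕ) (d : ℝ) : Prop :=
  Tendsto (fun x : ℕ => (({n : ℕ | 1 ≤ n ∧ n ≤ x ∧ n ∈ E}.ncard : ℕ) : ℝ) / x) atTop (nhds d)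

/-- The grand orbit of `n`: all positive integers whose trajectory meets the trajectory of `n`. -/
def G (n : ℕ) : Set ℕ := {m : ℕ | 1 ≤ m ∧ ∃ k l : ℕ, T^[k] n = T^[l] m}

/-- (1) Every function with values in `[0, 1]` which is invariant above `B` has a mean value, and its
averages over `[1, x]` are within `ε` of it for `x ≥ K B`, `K` depending only on `ε`.
(2) The grand orbits have natural densities, and these sum to one (the grand orbits are indexed by
their least elements). -/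
theorem result :
    (∀ ε : ℝ, 0 < ε → ∃ K : ℝ, ∀ (B : ℕ) (f : ℕ → ℝ), 1 ≤ B → (∀ n, 0 ≤ f n ∧ f n ≤ 1) →
      (∀ n, B < n → f (T n) = f n) →
      ∃ d : ℝ, Tendsto (fun x : ℕ => (∑ n ∈ Finset.Icc 1 x, f n) / x) atTop (nhds d) ∧
        ∀ x : ℕ, K * B ≤ x → |(∑ n ∈ Finset.Icc 1 x, f n) / x - d| ≤ ε) ∧
    ∃ g : ℕ → ℝ, (∀ i, HasDensity {n : ℕ | IsLeast (G n) i} (g i)) ∧ HasSum g 1 := by
  classical
  have key : ∀ (x : ℕ) (p : ℕ → Prop),
      {n : ℕ | 1 ≤ n ∧ n ≤ x ∧ p n}.ncard = ((Finset.Icc 1 x).filter p).card := by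
    intro x p
    rw [← Set.ncard_coe_finset]
    congr 1
    ext n
    simp [and_assoc]
  have hT : T = Pool.Agent.Helper76.ND.T := rfl
  -- densities as means of indicators
  have hden : ∀ (E : Set ℕ) (f : ℕ → ℝ) (d : ℝ), (∀ n, 1 ≤ n → f n = if n ∈ E then 1 else 0) →
      (HasDensity E d ↔ Pool.Agent.Helper76.DE.Mean f d) := by
    intro E f d hf
    unfold HasDensity Pool.Agent.Helper76.DE.Mean
    have h1 : ∀ x : ℕ, (({n : ℕ | 1 ≤ n ∧ n ≤ x ∧ n ∈ E}.ncard : ℕ) : ℝ) / x =
        (∑ n ∈ Finset.Icc 1 x, f n) / x := by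
      intro x
      rw [key x (fun n => n ∈ E), Finset.sum_congr rfl (fun n hn => hf n (Finset.mem_Icc.1 hn).1),
        ← Finset.sum_filter, Finset.sum_const, nsmul_eq_mul, mul_one]
    simp only [h1]
  have hadd : ∀ E : ℕ → Set ℕ, (∀ i j, i ≠ j → ∀ n, 1 ≤ n → n ∈ E i → n ∉ E j) →
      (∀ i n, 1 ≤ n → (T n ∈ E i ↔ n ∈ E i)) →
      ∃ (d : ℕ → ℝ) (D : ℝ), (∀ i, HasDensity (E i) (d i)) ∧ HasDensity (⋃ i, E i) D ∧
        HasSum d D := by
    intro E hdis hinv
    obtain ⟨d, hd, D, hD, hs⟩ := Pool.Agent.Helper76.DE.pSg E hdis hinv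
    refine ⟨d, D, fun i => (hden _ _ _ (fun n _ => ?_)).2 (hd i), (hden _ _ _ (fun n _ => ?_)).2 hD,
      hs⟩
    · split_ifs <;> rfl
    · simp only [Set.mem_iUnion]
  refine ⟨?_, ?_⟩
  · intro ε hε
    obtain ⟨K, _, hK⟩ := Pool.Agent.Helper76.DE.pDt ε hε
    refine ⟨K, fun B f hB hf hfT => ?_⟩
    exact hK B f hB hf hfT
  · -- grand orbits
    have hG : ∀ n, G (T n) = G n := by
      intro n
      ext m
      constructor
      · rintro ⟨hm, k, l, h⟩
        refine ⟨hm, k + 1, l, ?_⟩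
        rw [Function.iterate_succ_apply]
        exact h
      · rintro ⟨hm, k, l, h⟩
        refine ⟨hm, k, l + 1, ?_⟩
        rw [← Function.iterate_succ_apply, Function.iterate_succ_apply', h,
          ← Function.iterate_succ_apply' T l m]
    obtain ⟨g, D, hg, hD, hs⟩ := hadd (fun i => {n : ℕ | IsLeast (G n) i})
      (fun i j hij n _ hi hj => hij (IsLeast.unique hi hj))
      (fun i n _ => by
        show IsLeast (G (T n)) i ↔ IsLeast (G n) i
        rw [hG])
    have hone : HasDensity (⋃ i, {n : ℕ | IsLeast (G n) i}) 1 := by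
      refine (hden _ (fun _ => 1) 1 (fun n hn => ?_)).2 ?_
      · have hmem : n ∈ ⋃ i, {n : ℕ | IsLeast (G n) i} := by
          rw [Set.mem_iUnion]
          have hne : (G n).Nonempty := ⟨n, hn, 0, 0, rfl⟩
          exact ⟨sInf (G n), Nat.sInf_mem hne, fun m hm => Nat.sInf_le hm⟩
        rw [if_pos hmem]
      · unfold Pool.Agent.Helper76.DE.Mean
        refine (tendsto_const_nhds (x := (1 : ℝ))).congr' ?_
        filter_upwards [Filter.eventually_ge_atTop 1] with x hx
        have hx0 : (x : ℝ) ≠ 0 := by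
          have : x ≠ 0 := by omega
          exact_mod_cast this
        rw [Finset.sum_const, Nat.card_Icc, Nat.add_sub_cancel, nsmul_eq_mul, mul_one,
          div_self hx0]
    have hD1 : D = 1 := tendsto_nhds_unique hD hone
    rw [hD1] at hs
    exact ⟨g, hg, hs⟩

end Pool.Agent.Results.MP_77ff3d_nt.InvariantMeans
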