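import Pool.Agent.Helper76.ND.Final

/-!
# MP_77ff3d_nt: almost all trajectories of the `3x-1` map attain almost bounded values

Almost all in the sense of natural density.
-/

open Filter

namespace Pool.Agent.Results.MP_77ff3d_nt.NaturalDensity

/-- The map of the problem: `a ↦ a/2` for even `a`, `a ↦ 3a-1` for odd `a`. -/
def T (a : ℕ) : ℕ := if a % 2 = 0 then a / 2 else 3 * a - 1

/-- At most `C x / (log B) ^ (1/1600)` of the integers `1 ≤ n ≤ x` have a trajectory all of whose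
elements exceed `B`.  Consequently, for every `F` tending to infinity, the set of the `n` whose
trajectory contains an element `< F n` has natural density one. -/
theorem result :
    (∃ C : ℝ, ∀ B x : ℕ, 2 ≤ B →
      (({n : ℕ | 1 ≤ n ∧ n ≤ x ∧ ∀ k : ℕ, B < T^[k] n}.ncard : ℕ) : ℝ) ≤
        C * x / Real.log B ^ (1 / 1600 : ℝ)) ∧
    ∀ F : ℕ → ℝ, Tendsto F atTop atTop →
      Tendsto (fun x : ℕ =>
        (({n : ℕ | 1 ≤ n ∧ n ≤ x ∧ ∃ k : ℕ, ((T^[k] n : ℕ) : ℝ) < F n}.ncard : ℕ) : ℝ) / x)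
        atTop (nhds 1) := by
  classical
  have key : ∀ (x : ℕ) (P : ℕ → Prop),
      {n : ℕ | 1 ≤ n ∧ n ≤ x ∧ P n}.ncard = ((Finset.Icc 1 x).filter P).card := by
    intro x P
    rw [← Set.ncard_coe_finset]
    congr 1
    ext n
    simp [and_assoc]
  have hT : T = Pool.Agent.Helper76.ND.T := rfl
  obtain ⟨⟨C, _, h1⟩, h2⟩ := Pool.Agent.Helper76.ND.pFi
  refine ⟨⟨C, fun B x hB => ?_⟩, fun F hF => ?_⟩
  · rw [key, hT]
    have h := h1 B x hB
    convert h
  · have h3 := h2 F hF
    refine h3.congr fun x => ?_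
    rw [key, hT]

end Pool.Agent.Results.MP_77ff3d_nt.NaturalDensity
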