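import Pool.Agent.Helper13.PS.FinalU

/-!
# MP_77ff3d_nt: power saving for the trajectories of the `3x - 1` map

Uniform law for the trajectories, with exceptional sets smaller by a power of `x`.
-/

namespace Pool.Agent.Results.MP_77ff3d_nt.PowerSaving

/-- The map of the problem: `a ↦ a/2` for even `a`, `a ↦ 3a-1` for odd `a`. -/
def T (a : ℕ) : ℕ := if a % 2 = 0 then a / 2 else 3 * a - 1

/-- There are constants `C, c > 0` such that for every integer `x ≥ 2`: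
(1) for every `0 < ε ≤ 1` at most `C (log x)^4 x^(1 - c ε^4)` of the integers `1 ≤ n ≤ x` have some
`k ≤ 3 log n / log (4/3)` for which `log T^[k] n` differs by more than `ε log x` from
`log n - k log (4/3) / 3`;
(2) for every integer `2 ≤ B ≤ x` at most `C (log x)^4 x exp (-c (log B)^4 / (log x)^3)` of the
integers `1 ≤ n ≤ x` have a trajectory all of whose elements exceed `B`. -/
theorem result : ∃ C c : ℝ, 0 < C ∧ 0 < c ∧ ∀ x : ℕ, 2 ≤ x →
    (∀ ε : ℝ, 0 < ε → ε ≤ 1 →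
      (({n : ℕ | 1 ≤ n ∧ n ≤ x ∧ ∃ k : ℕ, (k : ℝ) * Real.log (4 / 3) ≤ 3 * Real.log n ∧
        ε * Real.log x <
          |Real.log (T^[k] n : ℕ) - (Real.log n - k * Real.log (4 / 3) / 3)|}.ncard : ℕ) : ℝ) ≤
        C * Real.log x ^ 4 * (x : ℝ) ^ (1 - c * ε ^ 4)) ∧
    (∀ B : ℕ, 2 ≤ B → B ≤ x →
      (({n : ℕ | 1 ≤ n ∧ n ≤ x ∧ ∀ k : ℕ, B < T^[k] n}.ncard : ℕ) : ℝ) ≤
        C * Real.log x ^ 4 * x * Real.exp (-(c * Real.log B ^ 4 / Real.log x ^ 3))) := by
  classical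
  have key : ∀ (x : ℕ) (Q : ℕ → Prop),
      {n : ℕ | 1 ≤ n ∧ n ≤ x ∧ Q n}.ncard = ((Finset.Icc 1 x).filter Q).card := by
    intro x Q
    rw [← Set.ncard_coe_finset]
    congr 1
    ext n
    simp [and_assoc]
  have hT : T = Pool.Agent.Helper76.ND.T := rfl
  obtain ⟨C, c, hC, hc, h⟩ := Pool.Agent.Helper13.PS.U.uUJ
  refine ⟨C, c, hC, hc, fun x hx => ⟨fun ε hε hε1 => ?_, fun B hB hBx => ?_⟩⟩
  · rw [key, hT]
    have h2 := (h x hx).1 ε hε hε1
    convert h2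
  · rw [key, hT]
    have h2 := (h x hx).2 B hB hBx
    convert h2

end Pool.Agent.Results.MP_77ff3d_nt.PowerSaving
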