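import Pool.Agent.Helper76.DE.Final

/-!
# MP_77ff3d_nt: natural densities of the predecessor sets of the `3x-1` map
-/

open Filter

namespace Pool.Agent.Results.MP_77ff3d_nt.PredecessorDensities

/-- The map of the problem: `a ↦ a/2` for even `a`, `a ↦ 3a-1` for odd `a`. -/
def T (a : ℕ) : ℕ := if a % 2 = 0 then a / 2 else 3 * a - 1

/-- The set `E` of positive integers has the natural density `d`. -/
def HasDensity (E : Set ℕ) (d : ℝ) : Prop :=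
  Tendsto (fun x : ℕ => (({n : ℕ | 1 ≤ n ∧ n ≤ x ∧ n ∈ E}.ncard : ℕ) : ℝ) / x) atTop (nhds d)

/-- The predecessor set of `a`: all `n` whose trajectory contains `a`. -/
def P (a : ℕ) : Set ℕ := {n : ℕ | ∃ k : ℕ, T^[k] n = a}

/-- Every predecessor set `P a` has a natural density `δ a`; for every `ε > 0` there is `c > 0` such that
at most `ε X` of the `a ≤ X` not divisible by `3` have `δ a < c / a` (`X` large); and the lower limit of
the averages of `a δ a` is at least `2 / log (4/3)`. -/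
theorem result :
    ∃ δ : ℕ → ℝ, (∀ a, 1 ≤ a → HasDensity (P a) (δ a)) ∧
      (∀ ε : ℝ, 0 < ε → ∃ c : ℝ, 0 < c ∧ ∃ X0 : ℕ, ∀ X : ℕ, X0 ≤ X →
        (({a : ℕ | 1 ≤ a ∧ a ≤ X ∧ ¬ 3 ∣ a ∧ δ a < c / a}.ncard : ℕ) : ℝ) ≤ ε * X) ∧
      ∀ ε : ℝ, 0 < ε → ∃ X0 : ℕ, ∀ X : ℕ, X0 ≤ X →
        (2 / Real.log (4 / 3) - ε) * X ≤ ∑ a ∈ Finset.Icc 1 X, a * δ a := by
  classical
  have key : ∀ (x : ℕ) (p : ℕ → Prop),
      {n : ℕ | 1 ≤ n ∧ n ≤ x ∧ p n}.ncard = ((Finset.Icc 1 x).filter p).card := by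
    intro x p
    rw [← Set.ncard_coe_finset]
    congr 1
    ext n
    simp [and_assoc]
  have hT : T = Pool.Agent.Helper76.ND.T := rfl
  -- densities as means of indicators
  have hden : ∀ (E : Set ℕ) (f : ℕ → ℝ) (d : ℝ), (∀ n, 1 ≤ n → f n = if n ∈ E then 1 else 0) →
      (HasDensity E d ↔ Pool.Agent.Helper76.DE.Mean f d) := by
    intro E f d hf
    unfold HasDensity Pool.Agent.Helper76.DE.Mean
    have h1 : ∀ x : ℕ, (({n : ℕ | 1 ≤ n ∧ n ≤ x ∧ n ∈ E}.ncard : ℕ) : ℝ) / x =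
        (∑ n ∈ Finset.Icc 1 x, f n) / x := by
      intro x
      rw [key x (fun n => n ∈ E), Finset.sum_congr rfl (fun n hn => hf n (Finset.mem_Icc.1 hn).1),
        ← Finset.sum_filter, Finset.sum_const, nsmul_eq_mul, mul_one]
    simp only [h1]
  obtain ⟨K, _, hK⟩ := Pool.Agent.Helper76.DE.pDt 1 one_pos
  obtain ⟨K', _, hK'⟩ := Pool.Agent.Helper76.DE.pDx 1 one_pos
  obtain ⟨hPi1, hPi2, hPi3⟩ := Pool.Agent.Helper76.DE.pPi
  have hS01 : ∀ a N, 0 ≤ Pool.Agent.Helper76.DE.pS a N ∧ Pool.Agent.Helper76.DE.pS a N ≤ 1 := by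
    intro a N
    unfold Pool.Agent.Helper76.DE.pS
    split_ifs <;> norm_num
  have hT01 : ∀ a N, 0 ≤ Pool.Agent.Helper76.DE.pT a N ∧ Pool.Agent.Helper76.DE.pT a N ≤ 1 := by
    intro a N
    unfold Pool.Agent.Helper76.DE.pT
    split_ifs <;> norm_num
  have h1 : ∀ a : ℕ, ∃ d : ℝ, 1 ≤ a → Pool.Agent.Helper76.DE.Mean (Pool.Agent.Helper76.DE.pT a) d := by
    intro a
    by_cases ha : 1 ≤ a
    · obtain ⟨d, hd, _⟩ := hK a (Pool.Agent.Helper76.DE.pT a) ha (hT01 a) (hPi3 a)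
      exact ⟨d, fun _ => hd⟩
    · exact ⟨0, fun h => absurd h ha⟩
  have h2 : ∀ a : ℕ, ∃ d : ℝ, 1 ≤ a → Pool.Agent.Helper76.DE.Mean (Pool.Agent.Helper76.DE.pS a) d := by
    intro a
    by_cases ha : 1 ≤ a
    · obtain ⟨l, _, hd, _⟩ := hK' a (Pool.Agent.Helper76.DE.pS a) ha (hS01 a) (hPi1 a)
      exact ⟨l / Pool.Agent.Helper76.ND.rho, fun _ => hd⟩
    · exact ⟨0, fun h => absurd h ha⟩
  choose δ hδ using h1
  choose δS hδS using h2
  have hle : ∀ a, 1 ≤ a → δS a ≤ δ a := by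
    intro a ha
    refine le_of_tendsto_of_tendsto' (hδS a ha) (hδ a ha) (fun x => ?_)
    exact div_le_div_of_nonneg_right (Finset.sum_le_sum (fun N _ => hPi2 a N))
      (Nat.cast_nonneg _)
  have hDS : Pool.Agent.Helper76.DE.DS δS := hδS
  refine ⟨δ, fun a ha => (hden _ _ _ (fun n _ => ?_)).2 (hδ a ha), ?_, ?_⟩
  · unfold Pool.Agent.Helper76.DE.pT P
    rw [hT]
    simp only [Set.mem_ofPred_eq]
  · intro ε hε
    obtain ⟨c, hc, X0, hX0⟩ := Pool.Agent.Helper76.DE.pFn δS hDS ε hε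
    refine ⟨c, hc, X0, fun X hX => ?_⟩
    have h3 : (({a : ℕ | 1 ≤ a ∧ a ≤ X ∧ ¬ 3 ∣ a ∧ δS a < c / a}.ncard : ℕ) : ℝ) ≤ ε * X := by
      rw [key X (fun a => ¬ 3 ∣ a ∧ δS a < c / a)]
      convert hX0 X hX
    refine le_trans (Nat.cast_le.2 (Set.ncard_le_ncard ?_ ?_)) h3
    · rintro a ⟨h4, h5, h6, h7⟩
      exact ⟨h4, h5, h6, lt_of_le_of_lt (hle a h4) h7⟩
    · exact (Set.finite_Icc 1 X).subset (fun a ha => ⟨ha.1, ha.2.1⟩)
  · intro ε hε
    obtain ⟨X0, hX0⟩ := Pool.Agent.Helper76.DE.pMv δS hDS ε hε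
    refine ⟨X0, fun X hX => ?_⟩
    have h3 : (2 / Real.log (4 / 3) - ε) = 1 / Pool.Agent.Helper76.ND.rho - ε := by
      unfold Pool.Agent.Helper76.ND.rho
      rw [one_div_div]
    rw [h3]
    refine le_trans (hX0 X hX) (Finset.sum_le_sum (fun a ha => ?_))
    exact mul_le_mul_of_nonneg_left (hle a (Finset.mem_Icc.1 ha).1) (Nat.cast_nonneg _)

end Pool.Agent.Results.MP_77ff3d_nt.PredecessorDensities
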